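import Pool.Agent.Zk91.SQ.Defs4

/-! # Module B3 for helper91: orthogonality of the cosines of the square -/

set_option autoImplicit false

open MeasureTheory Set

namespace Pool.Agent.Zk63.SQ

open Pool.Agent.Zk91.SQ

noncomputable section

theorem sqa_prod (a : ℝ) (g h : ℝ → ℝ) :
    ∫ z in Sqa a, g z.re * h z.im = (∫ x in Ioo 0 a, g x) * ∫ y in Ioo 0 a, h y := by
  have h1 := Complex.volume_preserving_equiv_real_prod.setIntegral_preimage_emb
    Complex.measurableEquivRealProd.measurableEmbedding (fun p : ℝ × ℝ => g p.1 * h p.2)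
    (Ioo 0 a ×ˢ Ioo 0 a)
  have h2 : Complex.measurableEquivRealProd ⁻¹' (Ioo 0 a ×ˢ Ioo 0 a) = Sqa a := by
    ext z
    simp [Sqa, Complex.measurableEquivRealProd]
  rw [h2] at h1
  have h3 : ∫ z in Sqa a, g z.re * h z.im =
      ∫ p in Ioo 0 a ×ˢ Ioo 0 a, g p.1 * h p.2 := h1
  rw [h3, Measure.volume_eq_prod]
  exact setIntegral_prod_mul g h _ _

theorem cosint {a : ℝ} (ha : 0 < a) (j : ℤ) :
    ∫ x in (0 : ℝ)..a, Real.cos (Real.pi / a * j * x) = if j = 0 then a else 0 := by
  by_cases h : j = 0
  · rw [if_pos h, h]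
    simp
  · rw [if_neg h]
    have hc : Real.pi / a * (j : ℝ) ≠ 0 := by
      have h1 : (j : ℝ) ≠ 0 := by exact_mod_cast h
      have h2 := Real.pi_pos.ne'
      positivity
    rw [intervalIntegral.integral_comp_mul_left (fun x => Real.cos x) hc, integral_cos]
    have h1 : Real.pi / a * (j : ℝ) * a = j * Real.pi := by
      field_simp
    rw [h1, Real.sin_int_mul_pi]
    simp

theorem one {a : ℝ} (ha : 0 < a) (m n : ℕ) :
    ∫ x in Ioo 0 a, (cN m * Real.cos (Real.pi / a * m * x)) *
      (cN n * Real.cos (Real.pi / a * n * x)) = if m = n then a else 0 := by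
  rw [← integral_Ioc_eq_integral_Ioo, ← intervalIntegral.integral_of_le ha.le]
  have h1 : ∀ x : ℝ, (cN m * Real.cos (Real.pi / a * m * x)) *
      (cN n * Real.cos (Real.pi / a * n * x)) = cN m * cN n / 2 *
        (Real.cos (Real.pi / a * ((m : ℤ) - (n : ℤ) : ℤ) * x) +
          Real.cos (Real.pi / a * ((m : ℤ) + (n : ℤ) : ℤ) * x)) := by
    intro x
    have h2 : Real.pi / a * ((m : ℤ) - (n : ℤ) : ℤ) * x =
        Real.pi / a * m * x - Real.pi / a * n * x := by
      push_cast
      ring
    have h3 : Real.pi / a * ((m : ℤ) + (n : ℤ) : ℤ) * x =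
        Real.pi / a * m * x + Real.pi / a * n * x := by
      push_cast
      ring
    rw [h2, h3, Real.cos_sub, Real.cos_add]
    ring
  simp only [h1]
  have hci : ∀ j : ℤ, IntervalIntegrable (fun x : ℝ => Real.cos (Real.pi / a * j * x)) volume 0 a :=
    fun j => (Real.continuous_cos.comp (continuous_const.mul continuous_id)).intervalIntegrable _ _
  rw [intervalIntegral.integral_const_mul, intervalIntegral.integral_add (hci _) (hci _),
    cosint ha, cosint ha]
  by_cases hmn : m = n
  · subst hmn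
    rw [if_pos rfl, if_pos (by omega)]
    by_cases hm : m = 0
    · subst hm
      rw [if_pos (by omega)]
      simp [cN]
      ring
    · rw [if_neg (by omega)]
      have h2 : (√2 : ℝ) * √2 = 2 := Real.mul_self_sqrt (by norm_num)
      simp only [cN, if_neg hm]
      rw [h2]
      ring
  · rw [if_neg hmn, if_neg (by omega), if_neg (by omega)]
    ring

theorem b3 : S_B3 := by
  intro a ha p q
  have h1 : ∀ z : ℂ, mn a p z * mn a q z =
      ((fun x : ℝ => (cN p.1 * Real.cos (Real.pi / a * p.1 * x)) *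
        (cN q.1 * Real.cos (Real.pi / a * q.1 * x))) z.re) *
      ((fun y : ℝ => (cN p.2 * Real.cos (Real.pi / a * p.2 * y)) *
        (cN q.2 * Real.cos (Real.pi / a * q.2 * y))) z.im) := by
    intro z
    simp only [mn]
    ring
  refine (integral_congr_ae (ae_of_all _ h1)).trans ?_
  refine (sqa_prod a (fun x : ℝ => (cN p.1 * Real.cos (Real.pi / a * p.1 * x)) *
        (cN q.1 * Real.cos (Real.pi / a * q.1 * x)))
      (fun y : ℝ => (cN p.2 * Real.cos (Real.pi / a * p.2 * y)) *
        (cN q.2 * Real.cos (Real.pi / a * q.2 * y)))).trans ?_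
  rw [one ha, one ha]
  by_cases h : p = q
  · rw [if_pos h, if_pos (by rw [h]), if_pos (by rw [h])]
    ring
  · rw [if_neg h]
    by_cases h2 : p.1 = q.1
    · rw [if_neg (show ¬ p.2 = q.2 from fun h3 => h (Prod.ext h2 h3))]
      ring
    · rw [if_neg h2]
      ring

end

end Pool.Agent.Zk63.SQ
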