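import Pool.Agent.Zk63.SQ.M2a

/-! # Module M2 for helper91: the angles of the Gaussian primes -/

set_option autoImplicit false

open Filter Topology

namespace Pool.Agent.Zk63.SQ

open Pool.Agent.Zk91.SQ

noncomputable section

/-- the chosen primes, one in each class of associated elements -/
def R : Set G := {π | Prime π ∧ (Quotient.out (Associates.mk π) : G) = π}

theorem R_prime {π : G} (h : π ∈ R) : Prime π := h.1

theorem R_eq {π π' : G} (h : π ∈ R) (h' : π' ∈ R) (hd : π ∣ π') : π = π' := by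
  have h1 : Associated π π' := h.1.associated_of_dvd h'.1 hd
  have h2 : Associates.mk π = Associates.mk π' := Associates.mk_eq_mk_iff_associated.2 h1
  rw [← h.2, ← h'.2, h2]

theorem R_exists {ξ : G} (h0 : ξ ≠ 0) (hu : ¬ IsUnit ξ) : ∃ π ∈ R, π ∣ ξ := by
  obtain ⟨i, hi, hd⟩ := WfDvdMonoid.exists_irreducible_factor hu h0
  have hp : Prime i := hi.prime
  obtain ⟨π, hπ⟩ : ∃ π : G, π = Quotient.out (Associates.mk i) := ⟨_, rfl⟩
  have h1 : Associates.mk π = Associates.mk i := by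
    rw [hπ]
    exact Quotient.out_eq _
  have h2 : Associated π i := Associates.mk_eq_mk_iff_associated.1 h1
  refine ⟨π, ⟨h2.symm.prime hp, ?_⟩, h2.dvd.trans hd⟩
  rw [h1, ← hπ]

open Classical in
/-- the Euler product -/
theorem euler {g : G → ℂ} (hmul : ∀ a b, g (a * b) = g a * g b) (hs : Summable g) (h0 : g 0 = 0)
    (hu : ∀ u, IsUnit u → g u = 1) :
    Tendsto (fun P : Finset R => (∏ π ∈ P, (1 - g π)) * ∑' ξ, g ξ) atTop
      (𝓝 (∑' ξ : G, if IsUnit ξ then 1 else 0)) := by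
  have h1 : ∀ P : Finset R, (∏ π ∈ P, (1 - g π)) * ∑' ξ, g ξ =
      ∑' ξ, if ∀ π ∈ P, ¬ (π : G) ∣ ξ then g ξ else 0 := by
    intro P
    have h2 := sieve hmul hs (P.map (Function.Embedding.subtype _)) (by
      intro π hπ
      rw [Finset.mem_map] at hπ
      obtain ⟨a, -, rfl⟩ := hπ
      exact R_prime a.2) (by
      intro π hπ π' hπ' hd
      rw [Finset.mem_map] at hπ hπ'
      obtain ⟨a, -, rfl⟩ := hπ
      obtain ⟨b, -, rfl⟩ := hπ'
      exact R_eq a.2 b.2 hd)
    rw [Finset.prod_map] at h2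
    simp only [Function.Embedding.subtype_apply] at h2
    rw [← h2]
    refine tsum_congr fun ξ => ?_
    congr 1
    simp
  simp only [h1]
  refine tendsto_tsum_of_dominated_convergence (bound := fun ξ => ‖g ξ‖) hs.norm ?_ ?_
  · intro ξ
    by_cases hξ : IsUnit ξ
    · rw [if_pos hξ]
      refine tendsto_const_nhds.congr fun P => ?_
      rw [if_pos, hu ξ hξ]
      intro π _ hd
      exact (R_prime π.2).not_isUnit (isUnit_of_dvd_unit hd hξ)
    · rw [if_neg hξ]
      by_cases hξ0 : ξ = 0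
      · refine tendsto_const_nhds.congr fun P => ?_
        rw [hξ0, h0]
        simp
      · obtain ⟨π, hπ, hd⟩ := R_exists hξ0 hξ
        refine tendsto_const_nhds.congr' ?_
        filter_upwards [eventually_ge_atTop ({⟨π, hπ⟩} : Finset R)] with P hP
        rw [if_neg]
        intro h
        exact h ⟨π, hπ⟩ (hP (Finset.mem_singleton_self _)) hd
  · refine Eventually.of_forall fun P ξ => ?_
    split_ifs <;> simp

/-- comparison of the Euler factors -/
theorem factor {ψ : ℂ} (h : ‖ψ‖ = 1) {x : ℝ} (hx0 : 0 ≤ x) (hx : x ≤ 1 / 2) :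
    ‖1 - ψ * (x : ℂ)‖ ≤ (1 - x) * Real.exp (4 * x * (1 - ψ.re)) := by
  have h1 : ‖1 - ψ * (x : ℂ)‖ ^ 2 = (1 - x) ^ 2 + 2 * x * (1 - ψ.re) := by
    rw [← Complex.normSq_eq_norm_sq, Complex.normSq_apply]
    have h2 : ψ.re ^ 2 + ψ.im ^ 2 = 1 := by
      have := Complex.normSq_eq_norm_sq ψ
      rw [h, Complex.normSq_apply] at this
      nlinarith
    simp
    nlinarith
  have hre : ψ.re ≤ 1 := (Complex.re_le_norm ψ).trans h.le
  have h2 : 0 ≤ x * (1 - ψ.re) := mul_nonneg hx0 (by linarith)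
  have h3 : ‖1 - ψ * (x : ℂ)‖ ^ 2 ≤ ((1 - x) * Real.exp (4 * x * (1 - ψ.re))) ^ 2 := by
    rw [h1, mul_pow, ← Real.exp_nat_mul]
    have h4 := Real.add_one_le_exp (((2 : ℕ) : ℝ) * (4 * x * (1 - ψ.re)))
    have h5 : (1 : ℝ) / 4 ≤ (1 - x) ^ 2 := by nlinarith
    have h6 : (1 - x) ^ 2 * (((2 : ℕ) : ℝ) * (4 * x * (1 - ψ.re)) + 1) ≤
        (1 - x) ^ 2 * Real.exp (((2 : ℕ) : ℝ) * (4 * x * (1 - ψ.re))) :=
      mul_le_mul_of_nonneg_left h4 (sq_nonneg _)
    refine le_trans ?_ h6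
    push_cast
    nlinarith
  have h4 : 0 ≤ (1 - x) * Real.exp (4 * x * (1 - ψ.re)) := mul_nonneg (by linarith) (Real.exp_pos _).le
  exact le_of_sq_le_sq h3 h4

open Classical in
/-- the sum over the primes of the Gaussian integers -/
theorem prime_sum (k : ℕ) (hsum : Summable fun p : {p : ℕ // P1 p} => (1 - |cc k p|) / (p : ℝ)) :
    ∃ B : ℝ, 0 ≤ B ∧ ∀ P : Finset R,
      ∑ π ∈ P, (1 - (psi (2 * k) (π : G)).re) / nr (π : G) ≤ B := by
  obtain ⟨F, hF⟩ : ∃ F : ℕ → ℝ, F = Set.indicator {p | P1 p} fun p => (1 - |cc k p|) / (p : ℝ) :=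
    ⟨_, rfl⟩
  have hFs : Summable F := by
    rw [hF]
    exact (summable_subtype_iff_indicator (s := {p | P1 p})).1 hsum
  have hF0 : ∀ p, 0 ≤ F p := by
    intro p
    rw [hF]
    apply Set.indicator_nonneg
    intro p hp
    have h4 : |cc k p| ≤ 1 := by
      unfold cc
      refine (Complex.abs_re_le_norm _).trans (psi_norm k ?_).le
      intro h
      have := gp_norm p hp
      rw [h, Zsqrtd.norm_zero] at this
      exact hp.1.ne_zero (by exact_mod_cast this.symm)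
    exact div_nonneg (by linarith) (Nat.cast_nonneg _)
  refine ⟨8 * ∑' p, F p, mul_nonneg (by norm_num) (tsum_nonneg hF0), fun P => ?_⟩
  -- the two parts
  have hpart : ∀ (d : ℕ → G), (∀ p, P1 p → (d p).norm = (p : ℤ)) → ∀ Q : Finset R,
      (∀ π ∈ Q, ∃ p, P1 p ∧ (π : G).norm = (p : ℤ) ∧ (π : G) ∣ d p ∧
        ((π : G) ∣ gp p ∨ (π : G) ∣ star (gp p))) →
      ∑ π ∈ Q, (1 - (psi (2 * k) (π : G)).re) / nr (π : G) ≤ 4 * ∑' p, F p := by
    intro d hd Q hQ
    have hinj : Set.InjOn (fun π : R => (π : G).norm.toNat) (Q : Set R) := by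
      intro a ha b hb hab
      obtain ⟨p, hp, hpn, hpd, -⟩ := hQ a ha
      obtain ⟨q, hq, hqn, hqd, -⟩ := hQ b hb
      have hpq : p = q := by
        simp only [hpn, hqn, Int.toNat_natCast] at hab
        exact hab
      subst hpq
      apply Subtype.ext
      apply R_eq a.2 b.2
      have key : ∀ π : G, π.norm = (p : ℤ) → π ∣ d p → Associated π (d p) := by
        rintro π hπ ⟨u, hu⟩
        have hp0 : (p : ℤ) ≠ 0 := by exact_mod_cast hp.1.ne_zero
        have h1 : u.norm = 1 := by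
          have h2 := hd p hp
          rw [hu, Zsqrtd.norm_mul, hπ] at h2
          have : (p : ℤ) * u.norm = p * 1 := by rw [h2, mul_one]
          exact mul_left_cancel₀ hp0 this
        have h2 : IsUnit u := (Zsqrtd.norm_eq_one_iff' (by norm_num) u).1 h1
        rw [hu]
        exact (associated_mul_unit_right π u h2)
      exact ((key _ hpn hpd).trans (key _ hqn hqd).symm).dvd
    have h1 : ∀ π ∈ Q, (1 - (psi (2 * k) (π : G)).re) / nr (π : G) ≤
        4 * F ((π : G).norm.toNat) := by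
      intro π hπ
      obtain ⟨p, hp, hpn, -, hpd⟩ := hQ π hπ
      have h2 : F ((π : G).norm.toNat) = (1 - |cc k p|) / (p : ℝ) := by
        rw [hpn, Int.toNat_natCast, hF, Set.indicator_of_mem (show p ∈ {p | P1 p} from hp)]
      have h3 : nr (π : G) = (p : ℝ) := by
        unfold nr
        rw [hpn]
        simp
      rw [h2, h3, ← mul_div_assoc]
      exact div_le_div_of_nonneg_right (re_psi k hp hpn hpd) (Nat.cast_nonneg _)
    calc ∑ π ∈ Q, (1 - (psi (2 * k) (π : G)).re) / nr (π : G)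
        ≤ ∑ π ∈ Q, 4 * F ((π : G).norm.toNat) := Finset.sum_le_sum h1
      _ = 4 * ∑ p ∈ Q.image (fun π : R => (π : G).norm.toNat), F p := by
          rw [← Finset.mul_sum, Finset.sum_image hinj]
      _ ≤ 4 * ∑' p, F p :=
          mul_le_mul_of_nonneg_left (hFs.sum_le_tsum _ fun p _ => hF0 p) (by norm_num)
  obtain ⟨w, hw⟩ : ∃ w : R → ℝ, w = fun π : R => (1 - (psi (2 * k) (π : G)).re) / nr (π : G) :=
    ⟨_, rfl⟩
  have hw0 : ∀ π, 0 ≤ w π := by
    intro π
    rw [hw]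
    refine div_nonneg ?_ (nr_nonneg _)
    have := (Complex.re_le_norm (psi (2 * k) (π : G))).trans
      (psi_norm (2 * k) (R_prime π.2).ne_zero).le
    linarith
  have hA := hpart gp gp_norm (P.filter fun π : R => ∃ p, P1 p ∧ (π : G).norm = (p : ℤ) ∧
    (π : G) ∣ gp p) (by
      intro π hπ
      obtain ⟨p, h1, h2, h3⟩ := (Finset.mem_filter.1 hπ).2
      exact ⟨p, h1, h2, h3, Or.inl h3⟩)
  have hB := hpart (fun p => star (gp p)) (fun p hp => by rw [Zsqrtd.norm_conj]; exact gp_norm p hp)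
    (P.filter fun π : R => ∃ p, P1 p ∧ (π : G).norm = (p : ℤ) ∧ (π : G) ∣ star (gp p)) (by
      intro π hπ
      obtain ⟨p, h1, h2, h3⟩ := (Finset.mem_filter.1 hπ).2
      exact ⟨p, h1, h2, h3, Or.inr h3⟩)
  have hle : ∑ π ∈ P, w π ≤
      ∑ π ∈ P.filter (fun π : R => ∃ p, P1 p ∧ (π : G).norm = (p : ℤ) ∧ (π : G) ∣ gp p), w π +
      ∑ π ∈ P.filter (fun π : R => ∃ p, P1 p ∧ (π : G).norm = (p : ℤ) ∧ (π : G) ∣ star (gp p)), w π := by
    rw [Finset.sum_filter, Finset.sum_filter, ← Finset.sum_add_distrib]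
    refine Finset.sum_le_sum fun π _ => ?_
    rcases below k (R_prime π.2) with h | ⟨p, h1, h2, h3⟩
    · have h4 : w π = 0 := by
        rw [hw]
        simp [h]
      rw [h4]
      split_ifs <;> simp
    · rcases h3 with h3 | h3
      · rw [if_pos ⟨p, h1, h2, h3⟩]
        have : 0 ≤ (if ∃ p, P1 p ∧ (π : G).norm = (p : ℤ) ∧ (π : G) ∣ star (gp p) then w π
            else 0) := by
          split_ifs
          · exact hw0 π
          · exact le_rfl
        linarith
      · have h4 : ∃ p, P1 p ∧ (π : G).norm = (p : ℤ) ∧ (π : G) ∣ star (gp p) := ⟨p, h1, h2, h3⟩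
        rw [if_pos h4]
        have : 0 ≤ (if ∃ p, P1 p ∧ (π : G).norm = (p : ℤ) ∧ (π : G) ∣ gp p then w π else 0) := by
          split_ifs
          · exact hw0 π
          · exact le_rfl
        linarith
  rw [hw] at hle
  linarith

/-- the zeta function is not bounded near `1` -/
theorem zeta_unbounded (K : ℝ) : ¬ ∀ s : ℝ, 1 < s → s ≤ 2 → ∑' ξ : G, nr ξ ^ (-s) ≤ K := by
  intro hK
  have h1 : ∀ T : Finset G, (∀ ξ ∈ T, ξ ≠ 0) → ∑ ξ ∈ T, (nr ξ)⁻¹ ≤ K := by
    intro T hT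
    have h2 : Tendsto (fun s : ℝ => ∑ ξ ∈ T, nr ξ ^ (-s)) (𝓝[>] 1) (𝓝 (∑ ξ ∈ T, nr ξ ^ (-(1 : ℝ)))) := by
      refine tendsto_finsetSum _ fun ξ hξ => ?_
      have h3 : Continuous fun s : ℝ => nr ξ ^ (-s) :=
        Real.continuous_const_rpow (nr_pos (hT ξ hξ)).ne' |>.comp continuous_neg
      exact (h3.tendsto 1).mono_left nhdsWithin_le_nhds
    have h3 : ∑ ξ ∈ T, nr ξ ^ (-(1 : ℝ)) ≤ K := by
      refine le_of_tendsto h2 ?_
      filter_upwards [Ioc_mem_nhdsGT (show (1 : ℝ) < 2 by norm_num)] with s hs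
      exact ((summ hs.1).sum_le_tsum T fun ξ _ => Real.rpow_nonneg (nr_nonneg ξ) _).trans
        (hK s hs.1 hs.2)
    simpa only [Real.rpow_neg_one] using h3
  have h2 : ∀ n : ℕ, (∑ i ∈ Finset.range n, (1 / ((i : ℝ) + 1))) / 2 ≤ K := by
    intro n
    obtain ⟨φ, hφ⟩ : ∃ φ : (_ : ℕ) × ℕ → G, φ = fun x => ⟨(x.1 : ℤ) + 1, (x.2 : ℤ) + 1⟩ := ⟨_, rfl⟩
    have hinj : Function.Injective φ := by
      rintro ⟨a, b⟩ ⟨c, d⟩ h
      rw [hφ] at h
      have h3 := congrArg Zsqrtd.re h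
      have h4 := congrArg Zsqrtd.im h
      simp at h3 h4
      rw [h3, h4]
    classical
    have h3 := h1 (((Finset.range n).sigma fun a => Finset.range (a + 1)).image φ) (by
      intro ξ hξ
      rw [Finset.mem_image] at hξ
      obtain ⟨x, -, rfl⟩ := hξ
      rw [hφ]
      intro h
      have h3 := congrArg Zsqrtd.re h
      simp at h3
      omega)
    rw [Finset.sum_image (fun a _ b _ h => hinj h), Finset.sum_sigma] at h3
    refine le_trans ?_ h3
    rw [Finset.sum_div]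
    refine Finset.sum_le_sum fun a _ => ?_
    have h4 : ∀ b ∈ Finset.range (a + 1), 1 / (2 * ((a : ℝ) + 1) ^ 2) ≤ (nr (φ ⟨a, b⟩))⁻¹ := by
      intro b hb
      rw [Finset.mem_range] at hb
      have h5 : nr (φ ⟨a, b⟩) = ((a : ℝ) + 1) ^ 2 + ((b : ℝ) + 1) ^ 2 := by
        unfold nr
        rw [norm_eq, hφ]
        push_cast
        ring
      rw [h5, ← one_div]
      have h6 : (b : ℝ) ≤ a := by exact_mod_cast Nat.le_of_lt_succ hb
      have h7 : (0 : ℝ) ≤ b := Nat.cast_nonneg _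
      apply one_div_le_one_div_of_le (by positivity)
      nlinarith
    have h5 := Finset.sum_le_sum h4
    rw [Finset.sum_const, Finset.card_range, nsmul_eq_mul] at h5
    refine le_trans (le_of_eq ?_) h5
    push_cast
    field_simp
  have h3 := Real.tendsto_sum_range_one_div_nat_succ_atTop
  obtain ⟨n, hn⟩ := (h3.eventually_gt_atTop (2 * K)).exists
  have := h2 n
  linarith

theorem m2 : S_M2 := by
  classical
  intro hM1 k hk hsum
  obtain ⟨B, hB0, hB⟩ := prime_sum k hsum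
  obtain ⟨C, hC⟩ := hM1 (2 * k) (by omega)
  refine zeta_unbounded (Real.exp (4 * B) * C) fun s hs1 hs2 => ?_
  have hsm := summ hs1
  obtain ⟨ψ, hψ⟩ : ∃ ψ : G → ℂ, ψ = psi (2 * k) := ⟨_, rfl⟩
  obtain ⟨g, hg⟩ : ∃ g : G → ℂ, g = fun ξ => ((nr ξ ^ (-s) : ℝ) : ℂ) := ⟨_, rfl⟩
  obtain ⟨h, hh⟩ : ∃ h : G → ℂ, h = fun ξ => ψ ξ * ((nr ξ ^ (-s) : ℝ) : ℂ) := ⟨_, rfl⟩
  have hgmul : ∀ a b, g (a * b) = g a * g b := by
    intro a b
    rw [hg]
    simp only
    rw [nr_mul, Real.mul_rpow (nr_nonneg _) (nr_nonneg _)]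
    push_cast
    ring
  have hhmul : ∀ a b, h (a * b) = h a * h b := by
    intro a b
    rw [hh]
    simp only
    rw [nr_mul, Real.mul_rpow (nr_nonneg _) (nr_nonneg _), hψ, psi_mul]
    push_cast
    ring
  have hg0 : g 0 = 0 := by
    rw [hg]
    simp only
    rw [nr_zero, Real.zero_rpow (by linarith)]
    simp
  have hh0 : h 0 = 0 := by
    rw [hh]
    simp only
    rw [nr_zero, Real.zero_rpow (by linarith)]
    simp
  have hgu : ∀ u, IsUnit u → g u = 1 := by
    intro u hu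
    rw [hg]
    simp only
    rw [nr_unit hu, Real.one_rpow]
    simp
  have hhu : ∀ u, IsUnit u → h u = 1 := by
    intro u hu
    rw [hh]
    simp only
    rw [nr_unit hu, Real.one_rpow, hψ, psi_unit k hu]
    simp
  have hgs : Summable g := by
    rw [hg]
    exact Complex.ofRealCLM.summable hsm
  have hhs : Summable h := by
    refine Summable.of_norm_bounded hsm fun ξ => ?_
    rcases eq_or_ne ξ 0 with h0 | h0
    · rw [h0, hh0, norm_zero]
      exact Real.rpow_nonneg (nr_nonneg _) _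
    · rw [hh]
      simp only
      rw [norm_mul, hψ, psi_norm _ h0, one_mul, Complex.norm_real, Real.norm_eq_abs,
        abs_of_nonneg (Real.rpow_nonneg (nr_nonneg _) _)]
  have e1 := euler hgmul hgs hg0 hgu
  have e2 := euler hhmul hhs hh0 hhu
  obtain ⟨m, hm⟩ : ∃ m : ℂ, m = ∑' ξ : G, if IsUnit ξ then 1 else 0 := ⟨_, rfl⟩
  rw [← hm] at e1 e2
  obtain ⟨Z, hZ⟩ : ∃ Z : ℝ, Z = ∑' ξ : G, nr ξ ^ (-s) := ⟨_, rfl⟩
  obtain ⟨L, hL⟩ : ∃ L : ℂ, L = ∑' ξ : G, h ξ := ⟨_, rfl⟩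
  have hLC : ‖L‖ ≤ C := by
    rw [hL, hh, hψ]
    exact hC s hs1 hs2
  have hZg : ∑' ξ, g ξ = (Z : ℂ) := by
    rw [hZ, hg, Complex.ofReal_tsum]
  rw [← hL] at e2
  rw [hZg] at e1
  rw [← hZ]
  have hZ0 : 0 ≤ Z := by
    rw [hZ]
    exact tsum_nonneg fun ξ => Real.rpow_nonneg (nr_nonneg _) _
  have hC0 : 0 ≤ C := (norm_nonneg _).trans hLC
  -- the size of the factors
  have hx : ∀ π : R, 0 ≤ nr (π : G) ^ (-s) ∧ nr (π : G) ^ (-s) ≤ 1 / 2 ∧
      nr (π : G) ^ (-s) ≤ 1 / nr (π : G) := by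
    intro π
    have h2 := nr_prime (R_prime π.2)
    have h3 : nr (π : G) ^ (-s) ≤ nr (π : G) ^ (-(1 : ℝ)) :=
      Real.rpow_le_rpow_of_exponent_le (by linarith) (by linarith)
    rw [Real.rpow_neg_one] at h3
    refine ⟨Real.rpow_nonneg (nr_nonneg _) _, ?_, ?_⟩
    · refine h3.trans ?_
      rw [← one_div]
      exact one_div_le_one_div_of_le (by norm_num) h2
    · rw [one_div]
      exact h3
  have hcomp : ∀ P : Finset R, ‖∏ π ∈ P, (1 - h (π : G))‖ ≤
      Real.exp (4 * B) * ‖∏ π ∈ P, (1 - g (π : G))‖ := by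
    intro P
    rw [norm_prod, norm_prod]
    have h3 : ∀ π ∈ P, ‖1 - h (π : G)‖ ≤ ‖1 - g (π : G)‖ *
        Real.exp (4 * ((1 - (ψ (π : G)).re) / nr (π : G))) := by
      intro π _
      obtain ⟨hx0, hx1, hx2⟩ := hx π
      have h4 : ‖ψ (π : G)‖ = 1 := by
        rw [hψ]
        exact psi_norm _ (R_prime π.2).ne_zero
      have h5 := factor h4 hx0 hx1
      have h6 : ‖1 - g (π : G)‖ = 1 - nr (π : G) ^ (-s) := by
        rw [hg]
        simp only
        have : (1 : ℂ) - ((nr (π : G) ^ (-s) : ℝ) : ℂ) = ((1 - nr (π : G) ^ (-s) : ℝ) : ℂ) := by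
          push_cast
          ring
        rw [this, Complex.norm_real, Real.norm_eq_abs, abs_of_nonneg (by linarith)]
      rw [h6, hh]
      refine h5.trans (mul_le_mul_of_nonneg_left (Real.exp_le_exp.2 ?_) (by linarith))
      have h7 : 0 ≤ 1 - (ψ (π : G)).re := by
        have := (Complex.re_le_norm (ψ (π : G))).trans h4.le
        linarith
      have h8 : nr (π : G) ^ (-s) * (1 - (ψ (π : G)).re) ≤ 1 / nr (π : G) * (1 - (ψ (π : G)).re) :=
        mul_le_mul_of_nonneg_right hx2 h7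
      have h9 : (1 - (ψ (π : G)).re) / nr (π : G) = 1 / nr (π : G) * (1 - (ψ (π : G)).re) := by
        ring
      rw [h9]
      linarith
    refine (Finset.prod_le_prod (fun π _ => norm_nonneg _) h3).trans ?_
    rw [Finset.prod_mul_distrib, ← Real.exp_sum, ← Finset.mul_sum, mul_comm]
    refine mul_le_mul_of_nonneg_right (Real.exp_le_exp.2 ?_)
      (Finset.prod_nonneg fun π _ => norm_nonneg _)
    have := hB P
    rw [hψ]
    linarith
  -- the limit
  have hm1 : 1 ≤ ‖m‖ := by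
    have hsu : Summable fun ξ : G => if IsUnit ξ then (1 : ℝ) else 0 := by
      refine Summable.of_nonneg_of_le (fun ξ => by split_ifs <;> norm_num) (fun ξ => ?_) hsm
      split_ifs with hu
      · rw [nr_unit hu, Real.one_rpow]
      · exact Real.rpow_nonneg (nr_nonneg _) _
    have h3 : m = ((∑' ξ : G, if IsUnit ξ then (1 : ℝ) else 0 : ℝ) : ℂ) := by
      rw [hm, Complex.ofReal_tsum]
      refine tsum_congr fun ξ => ?_
      split_ifs <;> simp
    have h4 : (1 : ℝ) ≤ ∑' ξ : G, if IsUnit ξ then (1 : ℝ) else 0 := by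
      have h5 := hsu.sum_le_tsum {1} (fun ξ _ => by split_ifs <;> norm_num)
      rw [Finset.sum_singleton, if_pos isUnit_one] at h5
      exact h5
    rw [h3, Complex.norm_real, Real.norm_eq_abs]
    exact h4.trans (le_abs_self _)
  have e3 := e1.norm
  have e4 := e2.norm
  -- `‖m‖ Z ≤ exp (4 B) ‖L‖ ‖m‖`
  have e5 : ‖m‖ * Z ≤ Real.exp (4 * B) * ‖L‖ * ‖m‖ := by
    refine le_of_tendsto_of_tendsto (e4.mul_const Z) (e3.const_mul (Real.exp (4 * B) * ‖L‖)) ?_
    refine Eventually.of_forall fun P => ?_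
    have h3 := hcomp P
    simp only [norm_mul, Complex.norm_real, Real.norm_eq_abs, abs_of_nonneg hZ0]
    have h4 : 0 ≤ ‖L‖ * Z := mul_nonneg (norm_nonneg _) hZ0
    nlinarith [mul_le_mul_of_nonneg_right h3 h4]
  have e6 : Z ≤ Real.exp (4 * B) * ‖L‖ := by
    have : ‖m‖ * Z ≤ ‖m‖ * (Real.exp (4 * B) * ‖L‖) := by linarith
    exact le_of_mul_le_mul_left this (by linarith)
  exact e6.trans (mul_le_mul_of_nonneg_left hLC (Real.exp_pos _).le)

end

end Pool.Agent.Zk63.SQ
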