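import Pool.Agent.Zk91.SQ.Defs

/-! # Gaussian integers: the characters, the sieve, summability (module M2 for helper91) -/

set_option autoImplicit false

open Filter Topology

namespace Pool.Agent.Zk63.SQ

open Pool.Agent.Zk91.SQ

noncomputable section

/-- the norm as a real number -/
def nr (ξ : G) : ℝ := (ξ.norm : ℝ)

theorem nr_nonneg (ξ : G) : 0 ≤ nr ξ := by
  unfold nr
  exact_mod_cast GaussianInt.norm_nonneg ξ

theorem nr_mul (a b : G) : nr (a * b) = nr a * nr b := by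
  unfold nr
  rw [Zsqrtd.norm_mul]
  push_cast
  ring

theorem nr_zero : nr 0 = 0 := by simp [nr, Zsqrtd.norm_zero]

theorem nr_pos {ξ : G} (h : ξ ≠ 0) : 0 < nr ξ := by
  unfold nr
  exact_mod_cast GaussianInt.norm_pos.2 h

theorem nr_unit {u : G} (h : IsUnit u) : nr u = 1 := by
  unfold nr
  have := (Zsqrtd.norm_eq_one_iff' (by norm_num) u).2 h
  rw [this]
  norm_num

theorem nr_ge_one {ξ : G} (h : ξ ≠ 0) : 1 ≤ nr ξ := by
  unfold nr
  exact_mod_cast GaussianInt.norm_pos.2 h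

theorem nr_prime {π : G} (h : Prime π) : 2 ≤ nr π := by
  have h1 : 0 < π.norm := GaussianInt.norm_pos.2 h.ne_zero
  have h2 : π.norm ≠ 1 := fun h3 => h.not_isUnit ((Zsqrtd.norm_eq_one_iff' (by norm_num) π).1 h3)
  unfold nr
  exact_mod_cast (by omega : 2 ≤ π.norm)

theorem psi_mul (k : ℕ) (a b : G) : psi k (a * b) = psi k a * psi k b := by
  unfold psi
  rw [GaussianInt.toComplex_mul, Zsqrtd.norm_mul]
  push_cast
  rw [mul_pow, mul_pow, mul_div_mul_comm]

theorem psi_star (k : ℕ) (a : G) : psi k (star a) = (starRingEnd ℂ) (psi k a) := by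
  unfold psi
  rw [GaussianInt.toComplex_star, Zsqrtd.norm_conj]
  simp

theorem psi_norm (k : ℕ) {ξ : G} (h : ξ ≠ 0) : ‖psi k ξ‖ = 1 := by
  unfold psi
  have h1 : (0 : ℝ) < ((ξ.norm : ℤ) : ℝ) := nr_pos h
  have h2 : ‖GaussianInt.toComplex ξ‖ ^ 2 = ((ξ.norm : ℤ) : ℝ) := by
    rw [GaussianInt.intCast_real_norm, Complex.normSq_eq_norm_sq]
  rw [norm_div, norm_pow, norm_pow]
  have h3 : ‖((ξ.norm : ℤ) : ℂ)‖ = ((ξ.norm : ℤ) : ℝ) := by
    rw [Complex.norm_intCast, abs_of_pos h1]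
  have h4 : ‖GaussianInt.toComplex ξ‖ ≠ 0 := by
    intro h4
    exact h (GaussianInt.toComplex_eq_zero.1 (norm_eq_zero.1 h4))
  have h5 : 2 * (2 * k) = 4 * k := by ring
  rw [h3, ← h2, ← pow_mul, h5]
  exact div_self (pow_ne_zero _ h4)

theorem psi_sq (k : ℕ) (ξ : G) : psi (2 * k) ξ = psi k ξ ^ 2 := by
  unfold psi
  rw [div_pow, ← pow_mul, ← pow_mul]
  ring_nf

theorem psi_of_pow8 (k : ℕ) {ξ : G} (h0 : ξ ≠ 0)
    (h : (GaussianInt.toComplex ξ) ^ 8 = ((ξ.norm : ℤ) : ℂ) ^ 4) : psi (2 * k) ξ = 1 := by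
  unfold psi
  have h1 : (4 * (2 * k)) = 8 * k := by ring
  have h2 : (2 * (2 * k)) = 4 * k := by ring
  rw [h1, h2, pow_mul, pow_mul, h]
  apply div_self
  apply pow_ne_zero
  apply pow_ne_zero
  have := GaussianInt.norm_pos.2 h0
  exact_mod_cast this.ne'

theorem psi_int (k : ℕ) {n : ℕ} (h : n ≠ 0) : psi (2 * k) (n : G) = 1 := by
  apply psi_of_pow8
  · exact_mod_cast h
  · rw [Zsqrtd.norm_natCast]
    simp
    ring

theorem psi_unit (k : ℕ) {u : G} (h : IsUnit u) : psi (2 * k) u = 1 := by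
  have h1 := (Zsqrtd.norm_eq_one_iff' (by norm_num) u).2 h
  apply psi_of_pow8 k h.ne_zero
  rw [h1]
  rw [norm_eq] at h1
  have h2 : u.re * u.re ≤ 1 := by nlinarith [mul_self_nonneg u.im]
  have h3 : u.im * u.im ≤ 1 := by nlinarith [mul_self_nonneg u.re]
  have h4 : u.re = -1 ∨ u.re = 0 ∨ u.re = 1 := by
    have : -1 ≤ u.re := by nlinarith
    have : u.re ≤ 1 := by nlinarith
    omega
  have h5 : u.im = -1 ∨ u.im = 0 ∨ u.im = 1 := by
    have : -1 ≤ u.im := by nlinarith
    have : u.im ≤ 1 := by nlinarith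
    omega
  have hI : Complex.I ^ 8 = 1 := by
    have : Complex.I ^ 8 = (Complex.I ^ 4) ^ 2 := by ring
    rw [this, Complex.I_pow_four]
    norm_num
  rcases h4 with h4 | h4 | h4 <;> rcases h5 with h5 | h5 | h5 <;> rw [h4, h5] at h1 <;>
    norm_num at h1 <;> rw [GaussianInt.toComplex_def, h4, h5] <;> push_cast <;> ring_nf <;>
    simp [hI]

theorem psi_two (k : ℕ) {π : G} (h : π.norm = 2) : psi (2 * k) π = 1 := by
  have h0 : π ≠ 0 := by
    rintro rfl
    rw [Zsqrtd.norm_zero] at h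
    norm_num at h
  apply psi_of_pow8 k h0
  rw [h]
  rw [norm_eq] at h
  have h2 : π.re * π.re ≤ 2 := by nlinarith [mul_self_nonneg π.im]
  have h3 : π.im * π.im ≤ 2 := by nlinarith [mul_self_nonneg π.re]
  have h4 : π.re = -1 ∨ π.re = 0 ∨ π.re = 1 := by
    have : -1 ≤ π.re := by nlinarith
    have : π.re ≤ 1 := by nlinarith
    omega
  have h5 : π.im = -1 ∨ π.im = 0 ∨ π.im = 1 := by
    have : -1 ≤ π.im := by nlinarith
    have : π.im ≤ 1 := by nlinarith
    omega
  have hI : ∀ a b : ℂ, a ^ 2 = 1 → b ^ 2 = 1 → (a + b * Complex.I) ^ 8 = 16 := by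
    intro a b ha hb
    have e1 : (a + b * Complex.I) ^ 2 = 2 * (a * b) * Complex.I := by
      have : (a + b * Complex.I) ^ 2 = a ^ 2 + b ^ 2 * Complex.I ^ 2 + 2 * (a * b) * Complex.I := by
        ring
      rw [this, ha, hb, Complex.I_sq]
      ring
    have e2 : (a + b * Complex.I) ^ 4 = -4 := by
      have : (a + b * Complex.I) ^ 4 = ((a + b * Complex.I) ^ 2) ^ 2 := by ring
      rw [this, e1]
      have : (2 * (a * b) * Complex.I) ^ 2 = 4 * a ^ 2 * b ^ 2 * Complex.I ^ 2 := by ring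
      rw [this, ha, hb, Complex.I_sq]
      ring
    have : (a + b * Complex.I) ^ 8 = ((a + b * Complex.I) ^ 4) ^ 2 := by ring
    rw [this, e2]
    norm_num
  have h16 : (((2 : ℤ) : ℂ)) ^ 4 = 16 := by norm_num
  rw [GaussianInt.toComplex_def, h16]
  apply hI
  · rcases h4 with h4 | h4 | h4 <;> rcases h5 with h5 | h5 | h5 <;> rw [h4, h5] at h <;>
      norm_num at h <;> rw [h4] <;> norm_num
  · rcases h4 with h4 | h4 | h4 <;> rcases h5 with h5 | h5 | h5 <;> rw [h4, h5] at h <;>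
      norm_num at h <;> rw [h5] <;> norm_num

/-- a prime of the Gaussian integers has `psi = 1` or lies above a prime `1` mod `4` -/
theorem below (k : ℕ) {π : G} (h : Prime π) : psi (2 * k) π = 1 ∨
    ∃ p : ℕ, P1 p ∧ π.norm = (p : ℤ) ∧ (π ∣ gp p ∨ π ∣ star (gp p)) := by
  -- a rational prime divisible by `π`
  have hstep : ∀ n : ℕ, n ≠ 0 → π ∣ (n : G) → ∃ p : ℕ, p.Prime ∧ π ∣ (p : G) := by
    intro n
    induction n using Nat.strong_induction_on with
    | _ n ih =>
      intro hn hd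
      rcases Nat.eq_or_lt_of_le (Nat.one_le_iff_ne_zero.2 hn) with h1 | h1
      · rw [← h1] at hd
        exact absurd (isUnit_of_dvd_one (by simpa using hd)) h.not_isUnit
      · obtain ⟨p, hp, m, hm⟩ := Nat.exists_prime_and_dvd (by omega : n ≠ 1)
        rw [hm] at hd
        push_cast at hd
        rcases h.dvd_or_dvd hd with h2 | h2
        · exact ⟨p, hp, h2⟩
        · refine ih m ?_ ?_ h2
          · rw [hm]
            have : 0 < m := by
              rcases Nat.eq_zero_or_pos m with h3 | h3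
              · rw [h3] at hm; omega
              · exact h3
            nlinarith [hp.two_le]
          · rintro rfl
            omega
  have hnn := GaussianInt.norm_pos.2 h.ne_zero
  obtain ⟨p, hp, hd⟩ := hstep π.norm.toNat (by omega) (by
    have h1 : ((π.norm.toNat : ℕ) : G) = ((π.norm : ℤ) : G) := by
      rw [← Int.cast_natCast, Int.toNat_of_nonneg hnn.le]
    rw [h1, Zsqrtd.norm_eq_mul_conj]
    exact dvd_mul_right _ _)
  obtain ⟨ρ, hρ⟩ := hd
  have hnorm : π.norm * ρ.norm = (p : ℤ) * p := by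
    rw [← Zsqrtd.norm_mul, ← hρ, Zsqrtd.norm_natCast]
  have hpp : Prime (p : ℤ) := Nat.prime_iff_prime_int.1 hp
  have hρ0 : ρ ≠ 0 := by
    rintro rfl
    rw [mul_zero] at hρ
    exact hp.ne_zero (by exact_mod_cast hρ)
  have hρn := GaussianInt.norm_pos.2 hρ0
  have h2 : π.norm ≠ 1 := fun h3 => h.not_isUnit ((Zsqrtd.norm_eq_one_iff' (by norm_num) π).1 h3)
  by_cases hu : IsUnit ρ
  · left
    have h3 : psi (2 * k) (π * ρ) = psi (2 * k) π * psi (2 * k) ρ := psi_mul _ _ _
    rw [← hρ, psi_int k hp.ne_zero, psi_unit k hu, mul_one] at h3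
    exact h3.symm
  · have h3 : ρ.norm ≠ 1 := fun h3 => hu ((Zsqrtd.norm_eq_one_iff' (by norm_num) ρ).1 h3)
    -- both norms are `p`
    have h4 : π.norm.toNat * ρ.norm.toNat = p * p := by
      have : ((π.norm.toNat * ρ.norm.toNat : ℕ) : ℤ) = ((p * p : ℕ) : ℤ) := by
        push_cast
        rw [Int.toNat_of_nonneg hnn.le, Int.toNat_of_nonneg hρn.le]
        exact hnorm
      exact_mod_cast this
    have h5 : π.norm.toNat = p := by
      have h6 : π.norm.toNat ∣ p ^ 2 := ⟨ρ.norm.toNat, by rw [h4]; ring⟩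
      obtain ⟨j, hj, hj2⟩ := (Nat.dvd_prime_pow hp).1 h6
      interval_cases j
      · rw [pow_zero] at hj2; omega
      · simpa using hj2
      · exfalso
        rw [hj2] at h4
        have hp0 : 0 < p * p := Nat.mul_pos hp.pos hp.pos
        have : ρ.norm.toNat = 1 := by
          have h7 : p * p * ρ.norm.toNat = p * p * 1 := by
            calc p * p * ρ.norm.toNat = p ^ 2 * ρ.norm.toNat := by ring
              _ = p * p := h4
              _ = p * p * 1 := by ring
          exact Nat.eq_of_mul_eq_mul_left hp0 h7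
        omega
    have h6 : π.norm = (p : ℤ) := by omega
    have h7 : (p : ℤ) = π.re * π.re + π.im * π.im := by rw [← h6, norm_eq]
    rcases hp.eq_two_or_odd with h8 | h8
    · left
      apply psi_two
      rw [h6, h8]
      norm_num
    · right
      have h9 : P1 p := by
        refine ⟨hp, ?_⟩
        have h10 : (π.re * π.re) % 4 = 0 ∨ (π.re * π.re) % 4 = 1 := by
          rcases Int.even_or_odd' π.re with ⟨c, hc | hc⟩ <;> rw [hc] <;> ring_nf <;> omega
        have h11 : (π.im * π.im) % 4 = 0 ∨ (π.im * π.im) % 4 = 1 := by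
          rcases Int.even_or_odd' π.im with ⟨c, hc | hc⟩ <;> rw [hc] <;> ring_nf <;> omega
        omega
      refine ⟨p, h9, h6, ?_⟩
      apply h.dvd_or_dvd
      rw [← Zsqrtd.norm_eq_mul_conj, gp_norm p h9, ← h6, Zsqrtd.norm_eq_mul_conj]
      exact dvd_mul_right _ _

/-- the value of the character at the primes above `p` -/
theorem re_psi (k : ℕ) {π : G} {p : ℕ} (hp : P1 p) (hn : π.norm = (p : ℤ))
    (hd : π ∣ gp p ∨ π ∣ star (gp p)) : 1 - (psi (2 * k) π).re ≤ 4 * (1 - |cc k p|) := by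
  have hp0 : (p : ℤ) ≠ 0 := by exact_mod_cast hp.1.ne_zero
  have hg0 : gp p ≠ 0 := by
    intro h
    have := gp_norm p hp
    rw [h, Zsqrtd.norm_zero] at this
    exact hp0 this.symm
  have key : ∀ γ : G, γ.norm = (p : ℤ) → π ∣ γ → psi (2 * k) γ = psi (2 * k) π := by
    rintro γ hγ ⟨u, hu⟩
    have h1 : u.norm = 1 := by
      rw [hu, Zsqrtd.norm_mul, hn] at hγ
      have : (p : ℤ) * u.norm = p * 1 := by rw [hγ, mul_one]
      exact mul_left_cancel₀ hp0 this
    have h2 : IsUnit u := (Zsqrtd.norm_eq_one_iff' (by norm_num) u).1 h1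
    rw [hu, psi_mul, psi_unit k h2, mul_one]
  have h1 : (psi (2 * k) π).re = (psi (2 * k) (gp p)).re := by
    rcases hd with h | h
    · rw [key _ (gp_norm p hp) h]
    · rw [← key _ (by rw [Zsqrtd.norm_conj]; exact gp_norm p hp) h, psi_star, Complex.conj_re]
  have h2 : ‖psi k (gp p)‖ = 1 := psi_norm k hg0
  have h3 : (psi (2 * k) (gp p)).re = 2 * (cc k p) ^ 2 - 1 := by
    rw [psi_sq]
    unfold cc
    obtain ⟨z, hz⟩ : ∃ z, z = psi k (gp p) := ⟨_, rfl⟩
    rw [← hz] at h2 ⊢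
    have h4 : z.re ^ 2 + z.im ^ 2 = 1 := by
      have := Complex.normSq_eq_norm_sq z
      rw [h2, Complex.normSq_apply] at this
      nlinarith
    have h5 : (z ^ 2).re = z.re ^ 2 - z.im ^ 2 := by
      rw [pow_two, Complex.mul_re]
      ring
    rw [h5]
    linarith
  have h4 : |cc k p| ≤ 1 := by
    unfold cc
    exact (Complex.abs_re_le_norm _).trans h2.le
  rw [h1, h3]
  have h5 : cc k p ^ 2 = |cc k p| ^ 2 := (sq_abs _).symm
  rw [h5]
  nlinarith [abs_nonneg (cc k p), mul_nonneg (sub_nonneg.2 h4) (sub_nonneg.2 h4)]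

/-- summability of the series -/
theorem summ {s : ℝ} (hs : 1 < s) : Summable fun ξ : G => nr ξ ^ (-s) := by
  have h1 := EisensteinSeries.summable_one_div_norm_rpow (k := 2 * s) (by linarith)
  have hinj : Function.Injective (fun ξ : G => (![ξ.re, ξ.im] : Fin 2 → ℤ)) := by
    intro a b hab
    have h2 := congrFun hab 0
    have h3 := congrFun hab 1
    simp at h2 h3
    exact Zsqrtd.ext h2 h3
  have h2 := h1.comp_injective hinj
  refine Summable.of_nonneg_of_le (fun ξ => Real.rpow_nonneg (nr_nonneg ξ) _) (fun ξ => ?_) h2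
  rcases eq_or_ne ξ 0 with h0 | h0
  · rw [h0, nr_zero, Real.zero_rpow (by linarith)]
    simp only [Function.comp_apply]
    positivity
  · simp only [Function.comp_apply]
    have h3 : 0 < ‖(![ξ.re, ξ.im] : Fin 2 → ℤ)‖ := by
      rw [norm_pos_iff]
      intro h
      apply h0
      have h2 := congrFun h 0
      have h3 := congrFun h 1
      simp at h2 h3
      exact Zsqrtd.ext h2 h3
    have h4 : ‖(![ξ.re, ξ.im] : Fin 2 → ℤ)‖ ≤ Real.sqrt (nr ξ) := by
      rw [pi_norm_le_iff_of_nonneg (Real.sqrt_nonneg _)]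
      intro i
      apply Real.le_sqrt_of_sq_le
      have h5 : nr ξ = (ξ.re : ℝ) ^ 2 + (ξ.im : ℝ) ^ 2 := by
        unfold nr
        rw [norm_eq]
        push_cast
        ring
      rw [h5]
      fin_cases i
      · have h6 : ‖(![ξ.re, ξ.im] : Fin 2 → ℤ) 0‖ ^ 2 = (ξ.re : ℝ) ^ 2 := by
          simp [Int.norm_eq_abs, sq_abs]
        change ‖(![ξ.re, ξ.im] : Fin 2 → ℤ) 0‖ ^ 2 ≤ _
        rw [h6]
        nlinarith [sq_nonneg (ξ.im : ℝ)]
      · have h6 : ‖(![ξ.re, ξ.im] : Fin 2 → ℤ) 1‖ ^ 2 = (ξ.im : ℝ) ^ 2 := by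
          simp [Int.norm_eq_abs, sq_abs]
        change ‖(![ξ.re, ξ.im] : Fin 2 → ℤ) 1‖ ^ 2 ≤ _
        rw [h6]
        nlinarith [sq_nonneg (ξ.re : ℝ)]
    have h6 : nr ξ ^ (-s) = (Real.sqrt (nr ξ)) ^ (-(2 * s)) := by
      rw [Real.sqrt_eq_rpow, ← Real.rpow_mul (nr_nonneg ξ)]
      congr 1
      ring
    rw [h6]
    exact Real.rpow_le_rpow_of_nonpos h3 h4 (by linarith)

open Classical in
/-- the sieve identity -/
theorem sieve {g : G → ℂ} (hmul : ∀ a b, g (a * b) = g a * g b) (hs : Summable g)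
    (P : Finset G) : (∀ π ∈ P, Prime π) → (∀ π ∈ P, ∀ π' ∈ P, π ∣ π' → π = π') →
    (∑' ξ, if ∀ π ∈ P, ¬ π ∣ ξ then g ξ else 0) = (∏ π ∈ P, (1 - g π)) * ∑' ξ, g ξ := by
  induction P using Finset.induction_on with
  | empty =>
    intro _ _
    simp
  | insert π P hπ ih =>
    intro h1 h2
    have h1' : ∀ π' ∈ P, Prime π' := fun π' h => h1 π' (Finset.mem_insert_of_mem h)
    have h2' : ∀ a ∈ P, ∀ b ∈ P, a ∣ b → a = b := fun a ha b hb =>
      h2 a (Finset.mem_insert_of_mem ha) b (Finset.mem_insert_of_mem hb)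
    have ih' := ih h1' h2'
    have hπp : Prime π := h1 π (Finset.mem_insert_self _ _)
    have hnd : ∀ π' ∈ P, ¬ π' ∣ π := by
      intro π' h' hd
      have := h2 π' (Finset.mem_insert_of_mem h') π (Finset.mem_insert_self _ _) hd
      rw [this] at h'
      exact hπ h'
    obtain ⟨F, hF⟩ : ∃ F : G → ℂ, F = fun ξ => if ∀ π ∈ P, ¬ π ∣ ξ then g ξ else 0 := ⟨_, rfl⟩
    have hFs : Summable F := by
      rw [hF]
      have := hs.norm.of_norm_bounded (f := fun ξ => if ∀ π ∈ P, ¬ π ∣ ξ then g ξ else 0)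
        (fun ξ => by split_ifs <;> simp)
      exact this
    have hFπ : ∀ η, F (π * η) = g π * F η := by
      intro η
      rw [hF]
      have h3 : (∀ π' ∈ P, ¬ π' ∣ π * η) ↔ ∀ π' ∈ P, ¬ π' ∣ η := by
        constructor
        · intro h π' h' hd
          exact h π' h' (hd.mul_left π)
        · intro h π' h' hd
          rcases (h1' π' h').dvd_or_dvd hd with h4 | h4
          · exact hnd π' h' h4
          · exact h π' h' h4
      simp only [h3]
      split_ifs
      · exact hmul _ _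
      · simp
    have hsplit : ∀ ξ, (if ∀ π' ∈ insert π P, ¬ π' ∣ ξ then g ξ else 0) =
        F ξ - (if π ∣ ξ then F ξ else 0) := by
      intro ξ
      rw [hF]
      by_cases h3 : π ∣ ξ
      · have : ¬ ∀ π' ∈ insert π P, ¬ π' ∣ ξ := fun h => h π (Finset.mem_insert_self _ _) h3
        rw [if_neg this, if_pos h3, sub_self]
      · have : (∀ π' ∈ insert π P, ¬ π' ∣ ξ) ↔ ∀ π' ∈ P, ¬ π' ∣ ξ := by
          rw [Finset.forall_mem_insert]
          exact and_iff_right h3
        simp only [this, if_neg h3, sub_zero]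
    have hFs2 : Summable fun ξ => if π ∣ ξ then F ξ else 0 :=
      hFs.norm.of_norm_bounded (fun ξ => by split_ifs <;> simp)
    have hinj : Function.Injective fun η : G => π * η := fun a b hab =>
      mul_left_cancel₀ hπp.ne_zero hab
    have h3 : ∑' ξ, (if π ∣ ξ then F ξ else 0) = ∑' η, F (π * η) := by
      rw [← hinj.tsum_eq (f := fun ξ => if π ∣ ξ then F ξ else 0)]
      · refine tsum_congr fun η => ?_
        rw [if_pos (dvd_mul_right _ _)]
      · intro ξ hξ
        rw [Function.mem_support] at hξ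
        by_contra hc
        apply hξ
        rw [if_neg]
        rintro ⟨η, rfl⟩
        exact hc ⟨η, rfl⟩
    rw [tsum_congr hsplit, hFs.tsum_sub hFs2, h3, tsum_congr hFπ, tsum_mul_left,
      Finset.prod_insert hπ]
    have h4 : ∑' ξ, F ξ = (∏ π ∈ P, (1 - g π)) * ∑' ξ, g ξ := by
      rw [← ih', hF]
    rw [h4]
    ring

end

end Pool.Agent.Zk63.SQ
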