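import Mathlib
import Pool.Agent.Zk91.SQ.Defs6

/-!
Bounds for values and differences from the mean value property (module W2 for helper91)
-/

set_option autoImplicit false

open MeasureTheory Filter Topology

namespace Pool.Agent.Zk63.SQ

open Pool.Agent.Zk91.SQ

theorem T0_cont : Continuous T0 := by
  unfold T0
  exact continuous_const.max (continuous_const.sub continuous_norm)

theorem T0_abs (y : ℂ) : |T0 y| ≤ 1 := by
  unfold T0
  rw [abs_of_nonneg (le_max_left _ _)]
  exact max_le (by norm_num) (by linarith [norm_nonneg y])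

theorem T0_lip (y z : ℂ) : |T0 y - T0 z| ≤ ‖y - z‖ := by
  have h1 := abs_norm_sub_norm_le y z
  have h2 := abs_max_sub_max_le_max 0 (1 - ‖y‖) 0 (1 - ‖z‖)
  unfold T0
  refine h2.trans ?_
  rw [sub_self, abs_zero, max_eq_right (abs_nonneg _)]
  have h3 : 1 - ‖y‖ - (1 - ‖z‖) = -(‖y‖ - ‖z‖) := by ring
  rw [h3, abs_neg]
  exact h1

theorem cs_bound (r : ℝ) {g f : ℂ → ℝ} (hg : Continuous g) (hf : Continuous f) {b : ℝ}
    (hb : ∀ y, |g y| ≤ b) :
    (∫ y in Metric.closedBall (0 : ℂ) r, g y * f y) ^ 2 ≤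
      b ^ 2 * volume.real (Metric.closedBall (0 : ℂ) r) *
        ∫ y in Metric.closedBall (0 : ℂ) r, f y ^ 2 := by
  have hK := isCompact_closedBall (0 : ℂ) r
  have hint : ∀ u : ℂ → ℝ, Continuous u → IntegrableOn u (Metric.closedBall (0 : ℂ) r) :=
    fun u hu => hu.continuousOn.integrableOn_compact hK
  have h1 : ∀ t : ℝ, 0 ≤ (∫ y in Metric.closedBall (0 : ℂ) r, g y ^ 2) * (t * t) +
      (2 * ∫ y in Metric.closedBall (0 : ℂ) r, g y * f y) * t +
        ∫ y in Metric.closedBall (0 : ℂ) r, f y ^ 2 := by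
    intro t
    have h2 : (∫ y in Metric.closedBall (0 : ℂ) r, (g y * t + f y) ^ 2) =
        (∫ y in Metric.closedBall (0 : ℂ) r, g y ^ 2) * (t * t) +
      (2 * ∫ y in Metric.closedBall (0 : ℂ) r, g y * f y) * t +
        ∫ y in Metric.closedBall (0 : ℂ) r, f y ^ 2 := by
      have h3 : (fun y => (g y * t + f y) ^ 2) =
          fun y => (g y ^ 2 * (t * t) + (g y * f y) * (2 * t)) + f y ^ 2 := by
        funext y
        ring
      rw [h3, integral_add, integral_add, integral_mul_const, integral_mul_const]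
      · ring
      · exact hint _ ((hg.pow 2).mul continuous_const)
      · exact hint _ ((hg.mul hf).mul continuous_const)
      · exact hint _ (((hg.pow 2).mul continuous_const).add ((hg.mul hf).mul continuous_const))
      · exact hint _ (hf.pow 2)
    rw [← h2]
    exact integral_nonneg fun y => sq_nonneg _
  have h4 := discrim_le_zero h1
  unfold discrim at h4
  have h5 : (∫ y in Metric.closedBall (0 : ℂ) r, g y ^ 2) ≤
      b ^ 2 * volume.real (Metric.closedBall (0 : ℂ) r) := by
    have h6 := norm_setIntegral_le_of_norm_le_const (μ := volume) (f := fun y : ℂ => g y ^ 2)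
      (C := b ^ 2) (hK.measure_lt_top) (fun y _ => by
        rw [Real.norm_eq_abs, abs_of_nonneg (sq_nonneg _)]
        exact sq_le_sq' (by linarith [(abs_le.mp (hb y)).1]) (abs_le.mp (hb y)).2)
    exact (le_abs_self _).trans h6
  have h7 : 0 ≤ ∫ y in Metric.closedBall (0 : ℂ) r, f y ^ 2 := integral_nonneg fun y => sq_nonneg _
  have h8 := mul_le_mul_of_nonneg_right h5 h7
  nlinarith

theorem rep {r : ℝ} {f : ℂ → ℝ} {w : ℂ} (hw : ‖w‖ ≤ r) :
    (∫ y : ℂ, T0 y * f (w + y)) =
      ∫ y in Metric.closedBall (0 : ℂ) (r + 1), T0 (y - w) * f y := by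
  rw [← integral_sub_right_eq_self (fun y => T0 y * f (w + y)) w]
  have h1 : ∀ y : ℂ, w + (y - w) = y := fun y => by ring
  simp only [h1]
  refine (setIntegral_eq_integral_of_forall_compl_eq_zero fun y hy => ?_).symm
  rw [mem_closedBall_zero_iff, not_le] at hy
  have h2 : T0 (y - w) = 0 := by
    unfold T0
    refine max_eq_left ?_
    have h3 := norm_sub_norm_le y w
    linarith
  rw [h2, zero_mul]

theorem w2 : S_W2 := by
  intro hkp R hR
  obtain ⟨V, hV⟩ : ∃ V : ℝ, V = volume.real (Metric.closedBall (0 : ℂ) (R + 1)) := ⟨_, rfl⟩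
  have hV0 : 0 ≤ V := hV ▸ measureReal_nonneg
  refine ⟨(V + 1) / kp ^ 2, by positivity, fun f hf hmv w w' hw hw' => ?_⟩
  obtain ⟨I, hI⟩ : ∃ I : ℝ, I = ∫ y in Metric.closedBall (0 : ℂ) (R + 1), f y ^ 2 := ⟨_, rfl⟩
  have hI0 : 0 ≤ I := hI ▸ integral_nonneg fun y => sq_nonneg _
  have hK := isCompact_closedBall (0 : ℂ) (R + 1)
  have hTc : ∀ w : ℂ, Continuous fun y => T0 (y - w) := fun w =>
    T0_cont.comp (continuous_id.sub continuous_const)
  have h1 : (kp * f w) ^ 2 ≤ 1 ^ 2 * V * I := by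
    rw [hmv w, rep hw, hV, hI]
    exact cs_bound (R + 1) (hTc w) hf fun y => T0_abs _
  have h2 : (kp * f w - kp * f w') ^ 2 ≤ ‖w - w'‖ ^ 2 * V * I := by
    rw [hmv w, hmv w', rep hw, rep hw', hV, hI, ← integral_sub]
    · have h3 : (fun y => T0 (y - w) * f y - T0 (y - w') * f y) =
          fun y => (T0 (y - w) - T0 (y - w')) * f y := by
        funext y
        ring
      rw [h3]
      refine cs_bound (R + 1) ((hTc w).sub (hTc w')) hf fun y => (T0_lip _ _).trans ?_
      have h4 : y - w - (y - w') = -(w - w') := by ring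
      rw [h4, norm_neg]
    · exact ((hTc w).mul hf).continuousOn.integrableOn_compact hK
    · exact ((hTc w').mul hf).continuousOn.integrableOn_compact hK
  rw [← hI]
  have hk2 : 0 < kp ^ 2 := by positivity
  constructor
  · rw [div_mul_eq_mul_div, le_div_iff₀ hk2]
    nlinarith
  · have h5 : (V + 1) / kp ^ 2 * ‖w - w'‖ ^ 2 * I = ((V + 1) * ‖w - w'‖ ^ 2 * I) / kp ^ 2 := by ring
    rw [h5, le_div_iff₀ hk2]
    have h6 : 0 ≤ ‖w - w'‖ ^ 2 * I := by positivity
    nlinarith

end Pool.Agent.Zk63.SQ
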